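import Pool.Agent.Q138.PS.VI
import Pool.Agent.Results.MP_4b482e_nt.AlgebraicWindows

/-!
# Generalised logarithms of the points with coordinates close to `α P(n)`, relative to the periods

Let `q₀ ≥ 2` and let `D_i = (F, q, u, R, S, Φ)`, `i ∈ ι`, be countably many systems of primitives of the differentials
`x^j dx / (q_a √F_a)` with the hypotheses of the starting file `AlgebraicWindows`; there are numbers `κ_i` (the limits at infinity of
the primitives which converge) such that for every countable set `𝒞` of complex numbers the following holds. Outside a set of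
real numbers of Hausdorff dimension at most `q₀ / (q₀ + 1 / (q₀ 2 ^ (q₀ - 1)))` (that is `8 / 9` for `q₀ = 2`) every `α > 0` has the
following property. There is `η > 0` such that for ALL `i`, ALL finite families `c` of elements of `𝒞` which contain `κ_i` and
`2 π i`, ALL `r`, `d`, `δ`, ALL algebraic numbers `γ` and both signs `ε` there is `κ > 0` such that for all large `N` and ALL integral
polynomials `P` of degree `q₀` with positive leading coefficient and coefficients of size at most `N ^ η`: for all but `N ^ (1 - κ)` of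
the `n ≤ N`, for ALL `r`-tuples of distinct integers `t_j` with `|t_j - ⌊α P(n)⌋| ≤ N ^ κ` such that the points `x_j = ε t_j + γ` are in
the domain, there is no relation of degree at most `δ` over a number field of degree at most `d` between the primitives at the
points `x_j`, the numbers `log x_j` and `c`.
-/

set_option autoImplicit false

namespace Pool.Agent.Results.MP_4b482e_nt.GeneralLogsAlongRealMultiples

open Finset Filter Topology Bornology
open Pool.Agent.Q138.PS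
open Pool.Agent.Results.MP_4b482e_nt.AlgebraicWindows

/-- Polynomials `F_a`, `q_a`, a direction `u`, a radius `R`, functions `S_a` and `Φ_(a,j)`. -/
structure Data where
  s : ℕ
  F : Fin s → Polynomial ℤ
  q : Fin s → Polynomial ℤ
  u : ℂ
  R : ℝ
  S : Fin s → ℂ → ℂ
  Φ : Idx F q → ℂ → ℂ

/-- The hypotheses of the starting file. -/
structure Good (D : Data) : Prop where
  sf : ∀ a, Squarefree ((D.F a * D.q a).map (Int.castRingHom ℚ))
  odd : ∀ a, Odd (D.F a).natDegree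
  deg : ∀ a, 3 ≤ (D.F a).natDegree + 2 * (D.q a).natDegree
  pos : ∀ a, 0 < (D.F a).leadingCoeff ∧ 0 < (D.q a).leadingCoeff
  dist : ∀ a b, a ≠ b → ∀ h c₁ c₂ : ℤ, c₁ ≠ 0 → c₂ ≠ 0 →
      Polynomial.C c₁ * D.F a ≠ Polynomial.C c₂ * (D.F b).comp (Polynomial.X + Polynomial.C h)
  ne : D.u ≠ 0
  prim : Primitives D.F D.q D.u D.R D.S D.Φ

/-- For all `r`-tuples of distinct points `x` of `S` in the domain, all number fields `K` of degree at most `d` and all numbers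
`y` which are nonzero `K`-multiples of the numbers at the points `x_i` plus elements of `K + ∑ K c_j`: every polynomial over
`K` of degree at most `δ` which vanishes at `(c, y)` is identically zero after the substitution of `c`. -/
def NoRelation (D : Data) {v : ℕ} (c : Fin v → ℂ) (r d δ : ℕ) (S : Set ℂ) : Prop :=
  ∀ x : Fin r → ℂ, Function.Injective x → (∀ i, x i ∈ S ∧ x i ∈ Domain D.u D.R) →
  ∀ K : IntermediateField ℚ ℂ, FiniteDimensional ℚ K → Module.finrank ℚ K ≤ d →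
  ∀ y : Fin r × (Idx D.F D.q ⊕ Unit) → ℂ,
    (∀ p, ∃ b : K, b ≠ 0 ∧ y p - b * number D.Φ (x p.1) p.2 ∈ Submodule.span K (insert 1 (Set.range c))) →
  ∀ P : MvPolynomial (Fin v ⊕ Fin r × (Idx D.F D.q ⊕ Unit)) K, P.totalDegree ≤ δ →
    MvPolynomial.aeval (Sum.elim c y) P = 0 →
    MvPolynomial.aeval (Sum.elim (fun j => MvPolynomial.C (c j)) MvPolynomial.X) P =
      (0 : MvPolynomial (Fin r × (Idx D.F D.q ⊕ Unit)) ℂ)

theorem winC (D : Data) {v : ℕ} (c : Fin v → ℂ) (r d δ : ℕ)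
    (h : ∀ m A : ℕ, ∃ E : ℕ, ∀ (H : ℕ) (ξ : ℂ), ((H : ℝ) + 2) ^ E ≤ ‖ξ‖ →
      (∃ p : Polynomial ℤ, p ≠ 0 ∧ p.natDegree ≤ m ∧ (∀ j, |(p.coeff j : ℝ)| ≤ ‖ξ‖ ^ A) ∧
        Polynomial.aeval ξ p = 0) →
      ∀ w : Fin 0 → ℂ, ∃ T : Finset ℕ,
        (T.card : Cardinal) ≤ (0 : ℕ) + 1 + Algebra.trdeg ℚ (IntermediateField.adjoin ℚ (Set.range c)) ∧
        ∀ n : Fin r → ℕ, Function.Injective n → (∀ i, 1 ≤ n i ∧ n i ≤ H ∧ n i ∉ T ∧ ξ + n i ∈ Domain D.u D.R) →
        ∀ K : IntermediateField ℚ ℂ, FiniteDimensional ℚ K → Module.finrank ℚ K ≤ d →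
        ∀ y : Fin r × (Idx D.F D.q ⊕ Unit) → ℂ,
          (∀ p, ∃ b : K, b ≠ 0 ∧ y p - b * number D.Φ (ξ + n p.1) p.2 ∈
            Submodule.span K (insert 1 (Set.range (Sum.elim w c)))) →
        ∀ P : MvPolynomial ((Fin 0 ⊕ Fin v) ⊕ Fin r × (Idx D.F D.q ⊕ Unit)) K, P.totalDegree ≤ δ →
          MvPolynomial.aeval (Sum.elim (Sum.elim w c) y) P = 0 →
          MvPolynomial.aeval (Sum.elim (fun j => MvPolynomial.C (Sum.elim w c j)) MvPolynomial.X) P =
            (0 : MvPolynomial (Fin r × (Idx D.F D.q ⊕ Unit)) ℂ)) :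
    WinC (NoRelation D c r d δ) := by
  classical
  intro m A
  obtain ⟨ρ, hρ⟩ := trdeg_nat (Set.range c) (Set.finite_range _)
  obtain ⟨E, hE⟩ := h m A
  refine ⟨E, 1 + ρ, fun H ξ hξ hp => ?_⟩
  obtain ⟨T, hT, h1⟩ := hE H ξ hξ hp Fin.elim0
  rw [hρ] at hT
  refine ⟨T, ?_, ?_⟩
  · have h2 : (T.card : Cardinal) ≤ ((1 + ρ : ℕ) : Cardinal) := by
      push_cast at hT ⊢
      rwa [zero_add] at hT
    exact_mod_cast h2
  intro x hx hxS K hK hKd y hy P hP hP0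
  choose hxS hxD using hxS
  choose g hg1 hg2 hg3 hg4 using hxS
  have hr : Set.range (Sum.elim (Fin.elim0 : Fin 0 → ℂ) c) = Set.range c := by
    rw [Set.Sum.elim_range]
    simp
  have h3 := h1 g (fun i j hij => hx (by rw [hg4 i, hg4 j, hij]))
    (fun i => ⟨hg1 i, hg2 i, hg3 i, by rw [← hg4 i]; exact hxD i⟩) K hK hKd y (fun p => by
      obtain ⟨b, hb, hb'⟩ := hy p
      refine ⟨b, hb, ?_⟩
      rw [hr, ← hg4 p.1]
      exact hb') (MvPolynomial.rename (Sum.map Sum.inr id) P) ((MvPolynomial.totalDegree_rename_le _ _).trans hP) (by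
      rw [MvPolynomial.aeval_rename]
      rw [show (Sum.elim (Sum.elim (Fin.elim0 : Fin 0 → ℂ) c) y ∘ Sum.map Sum.inr id) = Sum.elim c y by
        funext a
        rcases a with a | a <;> rfl]
      exact hP0)
  rw [MvPolynomial.aeval_rename] at h3
  rw [← h3]
  congr 2
  funext a
  rcases a with a | a <;> rfl

/-- **Theorem.** -/
theorem result (q₀ : ℕ) (hq₀ : 2 ≤ q₀) {ι : Type} [Countable ι] (D : ι → Data) (hD : ∀ i, Good (D i)) :
    ∃ κ : ∀ i, Idx (D i).F (D i).q → ℂ,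
      (∀ i (p : Idx (D i).F (D i).q),
        2 * (p.2 : ℕ) + 2 < ((D i).F p.1).natDegree + 2 * ((D i).q p.1).natDegree →
        Tendsto ((D i).Φ p) (cobounded ℂ ⊓ 𝓟 {x : ℂ | x / (D i).u ∈ Complex.slitPlane}) (𝓝 (κ i p))) ∧
      ∀ 𝒞 : Set ℂ, 𝒞.Countable →
      ∃ E : Set ℝ, dimH E ≤ ENNReal.ofReal (q₀ / (q₀ + 1 / ((q₀ : ℝ) * 2 ^ (q₀ - 1)))) ∧ ∀ α : ℝ, 0 < α → α ∉ E →
      ∃ η : ℝ, 0 < η ∧ ∀ (i : ι) (v : ℕ) (c : Fin v → ℂ), (∀ j, c j ∈ 𝒞) → Set.range (κ i) ⊆ Set.range c →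
      2 * Real.pi * Complex.I ∈ Set.range c → ∀ r d δ : ℕ, ∀ γ : ℂ, IsAlgebraic ℚ γ → ∀ ε : ℤ, ε = 1 ∨ ε = -1 →
      ∃ k : ℝ, 0 < k ∧ ∀ᶠ N : ℕ in atTop, ∀ P : Polynomial ℤ, P.natDegree = q₀ → 0 < P.leadingCoeff →
        (∀ j, |((P.coeff j : ℤ) : ℝ)| ≤ (N : ℝ) ^ η) →
        (badG (fun S => NoRelation (D i) c r d δ ((fun t : ℕ => (ε : ℂ) * t + γ) '' S)) ⌊(N : ℝ) ^ k⌋₊ α P N : ℝ) ≤
          (N : ℝ) ^ (1 - k) := by
  classical
  choose κ hκ1 hκ2 using fun i => AlgebraicWindows.result (D i).F (D i).q (hD i).sf (hD i).odd (hD i).deg (hD i).pos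
    (hD i).dist (D i).u (hD i).ne (D i).R (D i).S (D i).Φ (hD i).prim
  refine ⟨κ, hκ1, fun 𝒞 h𝒞 => ?_⟩
  have hC : Countable {x : ℂ // x ∈ 𝒞} := h𝒞.to_subtype
  obtain ⟨E, hE, hg⟩ := win_alg (ι := Σ i : ι, {c : (ℕ × ℕ × ℕ) × (Σ v : ℕ, Fin v → {x : ℂ // x ∈ 𝒞}) //
      Set.range (κ i) ⊆ Set.range (fun j => (c.2.2 j : ℂ)) ∧ 2 * Real.pi * Complex.I ∈ Set.range (fun j => (c.2.2 j : ℂ))})
    q₀ hq₀ (fun i => NoRelation (D i.1) (fun j => (i.2.1.2.2 j : ℂ)) i.2.1.1.1 i.2.1.1.2.1 i.2.1.1.2.2)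
    (fun i S S' hS h x hx hxS => h x hx fun j => ⟨hS (hxS j).1, (hxS j).2⟩)
    (fun i => winC _ _ _ _ _ fun m A => hκ2 i.1 (Fin i.2.1.2.1) _ i.2.2.1 i.2.2.2 _ m A _ _ 0)
  refine ⟨E, hE, fun α hα hαE => ?_⟩
  obtain ⟨η, hη, h1⟩ := hg α hα hαE
  refine ⟨η, hη, fun i v c hc hcκ hcπ r d δ γ hγ ε hε => ?_⟩
  exact h1 ⟨i, ⟨((r, d, δ), ⟨v, fun j => ⟨c j, hc j⟩⟩), hcκ, hcπ⟩⟩ γ hγ ε hε

end Pool.Agent.Results.MP_4b482e_nt.GeneralLogsAlongRealMultiples
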