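import Pool.Agent.Q189.GL.Link

/-!
# Generalised logarithms of almost all tuples of algebraic points on products of generalised Jacobians of
# hyperelliptic curves: algebraic independence with a measure, relative to the periods

For polynomials `F_a`, `q_a` the primitives `Φ_(a,j)` of `x^j dx / (q_a √F_a)`, `j < deg F_a - 1 + deg q_a`, are integrals
of the three kinds on the curve `C_a : y² = F_a(x)`, with logarithmic poles over the zeros of `q_a`.  Up to constants they
are the components of the generalised logarithm of the point `R_x` of the generalised Jacobian `G_a` of `C_a` (an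
extension of the Jacobian, of dimension `g_a = (deg F_a - 1)/2`, by a torus of dimension `deg q_a`) defined by
`(x, √F_a(x)) - ∞`; so the `2 g_a + deg q_a` numbers `Φ_(a,j)(x)` are `log~_(G_a)(R_x)` in the notation of the problem,
and the `Φ_(a,j)` along other paths differ by a sign and integer combinations of finitely many numbers `ω` (periods).

For the `k`-tuples of algebraic integers `α_i` of degree at most `m` all of whose conjugates are at most `T` in absolute
value and distinct natural numbers `θ_1, ..., θ_r`, we consider all the components of the generalised logarithms of the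
`k r` points `R_x` of `G = ∏ G_a`, `x = α_i + θ_j`, and the logarithms of the `α_i + θ_j`, with arbitrary determinations.
The conjecture (Q1, for these algebraic points of `G × G_m`) says that these numbers are algebraically independent over
the field of the periods of `G × G_m` if the points are sufficiently general.  We prove that there are `B` and `c > 0`
such that, for all but a proportion `O(T ^ (-c))` of the tuples `α`, the inequality `|P(…)| ≥ H ^ (-B)` holds for all
nonzero integer polynomials `P` of degree at most `d` and height at most `H` in these numbers,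

* for all `H` in a long interval from `H₁` to `H₁ ^ exp (T ^ c)`, for any sufficiently large `H₁`;
* for a set of `H` of upper density at least `1 - T ^ (-c)` on the doubly logarithmic scale; in particular for
  arbitrarily large `H`, with an exceptional set of tuples which does not depend on `H`;

and the same relative to arbitrary complex constants `ζ₁, ..., ζ_g`, for instance all the periods of `G`, uniformly in
`ζ`: `|P(ζ, …)| ≥ H ^ (-B) |P_e(ζ)|` for all coefficients `P_e(ζ)` of `P(ζ, X)`.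

The machine (measures for the values of G-functions at the points of a window, elimination of the constants, induction
on `k`, double counting over the heights `2 ^ (2 ^ j)`) is that of helper246 (`Pool.Agent.Q246.NR`, `NR2`), the expansion
of the integrals at infinity is that of the starting modules `Pool.Agent.Y916.Sl`.
-/

set_option autoImplicit false

namespace Pool.Agent.Results.MP_4b482e_nt.MeasureGeneralizedLogs

/-- The indices `(a, j)`, `j < deg F_a - 1 + deg q_a`, of the differentials. -/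
abbrev Idx {s : ℕ} (F q : Fin s → Polynomial ℤ) : Type := Σ a, Fin ((F a).natDegree - 1 + (q a).natDegree)

/-- The plane without the disc of radius `R` and the ray `- u [0, ∞)`. -/
def Domain (u : ℂ) (R : ℝ) : Set ℂ := {x | R < ‖x‖ ∧ x / u ∈ Complex.slitPlane}

/-- On the domain `S_a` is a continuous square root of `F_a` and `Φ_(a,j)` a primitive of `x^j / (q_a S_a)`. -/
def Primitives {s : ℕ} (F q : Fin s → Polynomial ℤ) (u : ℂ) (R : ℝ) (S : Fin s → ℂ → ℂ) (Φ : Idx F q → ℂ → ℂ) : Prop :=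
  ∀ x ∈ Domain u R, (∀ a, ContinuousAt (S a) x ∧ S a x ^ 2 = Polynomial.aeval x (F a)) ∧
    ∀ p : Idx F q, HasDerivAt (Φ p) (x ^ (p.2 : ℕ) / (Polynomial.aeval x (q p.1) * S p.1 x)) x

/-- `Λ_p(x)` is a determination of `Φ_p(x)`: equal to `± Φ_p(x)` up to an integer combination of the numbers `ω_i`, where
the sign and the combination may depend on `x` and `p`. -/
def Determinations {s : ℕ} {F q : Fin s → Polynomial ℤ} (u : ℂ) (R : ℝ) (Φ : Idx F q → ℂ → ℂ) {ρ : ℕ} (ω : Fin ρ → ℂ)
    (Λ : Idx F q → ℂ → ℂ) : Prop :=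
  ∀ x ∈ Domain u R, ∀ p : Idx F q, ∃ ε : ℤ, (ε = 1 ∨ ε = -1) ∧ ∃ n : Fin ρ → ℤ, Λ p x = ε * Φ p x + ∑ i, n i * ω i

/-- the algebraic integers of degree at most `m` all of whose conjugates have absolute value at most `T` -/
def Ints (m T : ℕ) : Set ℂ :=
  {α | IsIntegral ℤ α ∧ (minpoly ℚ α).natDegree ≤ m ∧ ∀ z : ℂ, Polynomial.aeval z (minpoly ℚ α) = 0 → ‖z‖ ≤ T}

/-- `P = Σ P_e(Y) X ^ e` has degree at most `d` in `X`, its coefficients `P_e` have degree at most `d` in `Y`,
and the integer coefficients are at most `H` in absolute value -/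
def Adm {σ : Type} {g : ℕ} (d : ℕ) (H : ℝ) (P : MvPolynomial σ (MvPolynomial (Fin g) ℤ)) : Prop :=
  P.totalDegree ≤ d ∧ ∀ e, (P.coeff e).totalDegree ≤ d ∧ ∀ f, |(((P.coeff e).coeff f : ℤ) : ℝ)| ≤ H

/-- the value `P(ζ, w)` -/
noncomputable def val {σ : Type} {g : ℕ} (ζ : Fin g → ℂ) (w : σ → ℂ) (P : MvPolynomial σ (MvPolynomial (Fin g) ℤ)) :
    ℂ := MvPolynomial.eval₂ (MvPolynomial.aeval ζ).toRingHom w P

/-- the measure of algebraic independence of the numbers `w` for polynomials of degree at most `d` and height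
at most `H`, also relative to the constants `ζ` -/
def Good {σ : Type} {g : ℕ} (d B : ℕ) (ζ : Fin g → ℂ) (w : σ → ℂ) (H : ℝ) : Prop :=
  (∀ P : MvPolynomial σ ℤ, P ≠ 0 → P.totalDegree ≤ d → (∀ e, |((P.coeff e : ℤ) : ℝ)| ≤ H) →
    1 ≤ H ^ B * ‖MvPolynomial.aeval w P‖) ∧
  ∀ P : MvPolynomial σ (MvPolynomial (Fin g) ℤ), Adm d H P →
    ∀ e, ‖MvPolynomial.aeval ζ (P.coeff e)‖ ≤ H ^ B * ‖val ζ w P‖

/-- the numbers `Λ_p(α_i + θ_j)` and `l(α_i + θ_j)` -/
noncomputable def numbers {s : ℕ} {F q : Fin s → Polynomial ℤ} (Λ : Idx F q → ℂ → ℂ) (l : ℂ → ℂ) {k r : ℕ}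
    (θ : Fin r → ℕ) (α : Fin k → ℂ) : (Fin k × Fin r) × (Idx F q ⊕ Unit) → ℂ
  | (x, Sum.inl p) => Λ p (α x.1 + θ x.2)
  | (x, Sum.inr _) => l (α x.1 + θ x.2)

/-- Let `F_a`, `q_a` be integral polynomials with positive leading coefficients such that `F_a q_a` is squarefree,
`deg F_a` is odd, `deg F_a + 2 deg q_a ≥ 3` and no `F_a` is proportional to an integral translate of another `F_b`, let
`Φ` be primitives of the differentials `x^j dx / (q_a √F_a)` on a domain as above, `Λ` arbitrary determinations of these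
integrals, and `l(α)` any logarithm of `α`.  For all `k`, `g`, `d`, `m ≥ 1` and distinct `θ_1, …, θ_r ∈ ℕ` there are `B`,
`C` and `c > 0` such that for all `T ≥ 1`: for all but at most `C T ^ (-c) |Ints m T| ^ k` of the `k`-tuples `α` of
elements of `Ints m T` with all `α_i + θ_j` in the domain, the measure with exponent `B` holds for the numbers
`Λ_p(α_i + θ_j)`, `l(α_i + θ_j)` for all `H` with `H₁ ≤ H ≤ H₁ ^ exp (T ^ c)`, for each large `H₁`; and, with one
exceptional set for all `H`, for a set of `H` of upper density at least `1 - T ^ (-c)` on the doubly logarithmic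
scale; also relative to arbitrary constants. -/
theorem result {s : ℕ} (F q : Fin s → Polynomial ℤ)
    (hsf : ∀ a, Squarefree ((F a * q a).map (Int.castRingHom ℚ))) (hodd : ∀ a, Odd (F a).natDegree)
    (hdeg : ∀ a, 3 ≤ (F a).natDegree + 2 * (q a).natDegree)
    (hpos : ∀ a, 0 < (F a).leadingCoeff ∧ 0 < (q a).leadingCoeff)
    (hdist : ∀ a b, a ≠ b → ∀ h c₁ c₂ : ℤ, c₁ ≠ 0 → c₂ ≠ 0 →
      Polynomial.C c₁ * F a ≠ Polynomial.C c₂ * (F b).comp (Polynomial.X + Polynomial.C h))
    (u : ℂ) (hu : u ≠ 0) (R : ℝ) (S : Fin s → ℂ → ℂ) (Φ : Idx F q → ℂ → ℂ) (hΦ : Primitives F q u R S Φ)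
    {ρ : ℕ} (ω : Fin ρ → ℂ) (Λ : Idx F q → ℂ → ℂ) (hΛ : Determinations u R Φ ω Λ)
    (l : ℂ → ℂ) (hl : ∀ α, α ≠ 0 → Complex.exp (l α) = α)
    (k g d m : ℕ) (hm : 1 ≤ m) {r : ℕ} (θ : Fin r → ℕ) (hθ : Function.Injective θ) :
    ∃ (B : ℕ) (C c : ℝ), 0 < c ∧ ∀ T : ℕ, 1 ≤ T →
    (∃ H₀ : ℝ, ∀ H₁ : ℝ, H₀ ≤ H₁ → ∀ ζ : Fin g → ℂ,
      (({α : Fin k → ℂ | (∀ i, α i ∈ Ints m T ∧ ∀ j, α i + θ j ∈ Domain u R) ∧
        ¬ ∀ H : ℝ, H₁ ≤ H → H ≤ H₁ ^ Real.exp ((T : ℝ) ^ c) → Good d B ζ (numbers Λ l θ α) H}.ncard : ℕ) : ℝ) ≤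
          C * (T : ℝ) ^ (-c) * (((Ints m T).ncard : ℕ) : ℝ) ^ k) ∧
    ∀ ζ : Fin g → ℂ, (({α : Fin k → ℂ | (∀ i, α i ∈ Ints m T ∧ ∀ j, α i + θ j ∈ Domain u R) ∧
      ¬ ∀ N₀ : ℕ, ∃ N, N₀ ≤ N ∧
      (({j : ℕ | j < N ∧ ¬ ∀ H : ℝ, 2 ^ (2 ^ j) ≤ H → H ≤ 2 ^ (2 ^ (j + 1)) →
        Good d B ζ (numbers Λ l θ α) H}.ncard : ℕ) : ℝ) ≤ (T : ℝ) ^ (-c) * N}.ncard : ℕ) : ℝ) ≤
          C * (T : ℝ) ^ (-c) * (((Ints m T).ncard : ℕ) : ℝ) ^ k := by
  classical
  have hG : ∀ a, Pool.Agent.Y916.Sa.GoodP (F a) (q a) := by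
    intro a
    have h := hsf a
    rw [Polynomial.map_mul, squarefree_mul_iff] at h
    exact ⟨h.2.1, hodd a, (hpos a).1, h.2.2, (hpos a).2, h.1.isCoprime, hdeg a⟩
  obtain ⟨G, hG1, hwin⟩ := Pool.Agent.Q189.GL.win_g hG (fun a b hab h c₁ c₂ => hdist a b hab h c₁ c₂) hu (R := R)
    (S := S) (Φ := Φ) (fun x hx1 hx2 => hΦ x ⟨hx1, hx2⟩) ω (fun x p => Λ p x)
    (fun x hx p => hΛ x ⟨hx.1, hx.2⟩ p) l hl m θ hθ
  refine Pool.Agent.Q246.NR2.masterNF' m hm _ _ (G : ℤ) (by exact_mod_cast (by omega : G ≠ 0)) hwin k g d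
    (fun B ζ α H => Good d B ζ (numbers Λ l θ α) H) (fun B ζ α H _ h => ?_)
  have hinj : Function.Injective (fun t : (Fin k × Fin r) × (Idx F q ⊕ Unit) =>
      ((t.1.1, (t.1.2, t.2)) : Fin k × (Fin r × Pool.Agent.Y916.Sa.Tau (Pool.Agent.Y916.Sa.mm F q)))) := by
    rintro ⟨⟨i, j⟩, t⟩ ⟨⟨i', j'⟩, t'⟩ h
    simp only [Prod.mk.injEq] at h
    obtain ⟨rfl, rfl, rfl⟩ := h
    rfl
  have h1 := h.rename _ hinj
  have h2 : (fun t : (Fin k × Fin r) × (Idx F q ⊕ Unit) => Pool.Agent.Q189.GL.yG F q (fun x p => Λ p x) l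
      (α t.1.1 + θ t.1.2) t.2) = numbers Λ l θ α := by
    funext t
    obtain ⟨x, p | w⟩ := t <;> rfl
  rw [← h2]
  exact h1

end Pool.Agent.Results.MP_4b482e_nt.MeasureGeneralizedLogs
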