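import Pool.Agent.Q138.PS.WI
import Pool.Agent.Q138.PS.WA
import Pool.Agent.Q138.PS.WJ
import Pool.Agent.Q138.AJ.R4b482e

/-!
# Exponentials of polynomials in logarithms of the rational numbers close to given real numbers

Let `Q_1, …, Q_M` be real polynomials such that no nontrivial integral combination of `s, Q_1, …, Q_M` is constant. An `n`-tuple
`q` of rational numbers in `[a, b] ⊂ (0, ∞)` with denominators at most `T` is exceptional (for `d`, `A`, `B`) if some nonzero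
polynomial of degree at most `d` in each variable, with integral coefficients of size at most `T ^ A`, takes at `π`, `log q_j` and
`exp (Q_k (log q_j))` a value of absolute value at most `T ^ (-B)`. We show that only the points `z` of a small set have
exceptional tuples among their good approximations.


* For given `d`, `A`, `[a, b]` and `β` there is `B` such that for all `θ > 0`, outside a set of `z ∈ ℝ^n` of Hausdorff
  dimension at most `(2 (n - 1) + β) / θ`, for all large `T` no exceptional tuple with denominators at most `T` satisfies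
  `|q_j - z_j| ≤ T ^ (-θ)` for all `j`. Here `β` is any number larger than `2 - 2 / ((d + 1)^((M + 1) n + 1) + 1)`, so that the dimension is
  smaller than `n` for `θ` close to `2`; and for `θ < 2` almost every `z` has approximations `q` of this quality for all large `T`.
* Outside a set of Hausdorff dimension ZERO every `z ∈ ℝ^n` has the property that for all `d`, `A` and `[a, b]` there are `B`
  and `θ` such that for all large `T` no exceptional tuple with denominators at most `T` satisfies `|q_j - z_j| ≤ T ^ (-θ)` for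
  all `j`.
-/

set_option autoImplicit false

namespace Pool.Agent.Results.MP_4b482e_nt.TuplesNearGivenPoints

open Filter  Pool.Agent.Q138.PS Pool.Agent.Q138.AJ.R4b482e

theorem mono {M n d : ℕ} {Q : Fin M → Polynomial ℝ} {a b A B T T' : ℝ} (h1 : max 1 (2 ^ max B 0) ≤ T) (h2 : T ≤ T')
    (h3 : T' ≤ 2 * T) : Exceptional n d Q a b A (max B 0 + 1) T ⊆ Exceptional n d Q a b (max A 0) B T' := by
  have h4 : 1 ≤ T := (le_max_left _ _).trans h1
  rintro q ⟨hq, P, hP, hd, hc, hv⟩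
  exact ⟨fun j => ⟨(hq j).1, (hq j).2.trans h2⟩, P, hP, hd, fun e => (hc e).trans (num_coeff h4 h2),
    hv.trans (num_value h4 ((le_max_right _ _).trans h1) h2 h3)⟩

theorem mono2 {M n d : ℕ} {Q : Fin M → Polynomial ℝ} {a b a' b' A A' B T : ℝ} (ha : a' ≤ a) (hb : b ≤ b') (hA : A ≤ A')
    (hT : 1 ≤ T) : Exceptional n d Q a b A B T ⊆ Exceptional n d Q a' b' A' B T := by
  rintro q ⟨hq, P, hP, hd, hc, hv⟩
  exact ⟨fun j => ⟨⟨ha.trans (hq j).1.1, (hq j).1.2.trans hb⟩, (hq j).2⟩, P, hP, hd,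
    fun e => (hc e).trans (Real.rpow_le_rpow_of_exponent_le hT hA), hv⟩

/-- **Theorem.** -/
theorem result {M : ℕ} (n : ℕ) (hn : 1 ≤ n) (Q : Fin M → Polynomial ℝ)
    (hQ : ∀ (c0 : ℤ) (c : Fin M → ℤ),
      (Polynomial.C (c0 : ℝ) * Polynomial.X + ∑ k, Polynomial.C (c k : ℝ) * Q k).natDegree = 0 → c0 = 0 ∧ c = 0) :
    (∀ (d : ℕ) (A a b β : ℝ), 0 < a → a < b → 2 - 2 / (((d : ℝ) + 1) ^ ((M + 1) * n + 1) + 1) < β → ∃ B : ℝ, ∀ θ : ℝ, 0 < θ →
      ∃ Z : Set (Fin n → ℝ), dimH Z ≤ ENNReal.ofReal ((2 * ((n : ℝ) - 1) + β) / θ) ∧ ∀ z, z ∉ Z → ∀ᶠ T : ℝ in atTop,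
        ∀ q ∈ Exceptional n d Q a b A B T, ∃ j, T ^ (-θ) < |(q j : ℝ) - z j|) ∧
    ∃ Z : Set (Fin n → ℝ), dimH Z = 0 ∧ ∀ z, z ∉ Z → ∀ (d : ℕ) (A a b : ℝ), 0 < a → a < b → ∃ B θ : ℝ, 0 < θ ∧
      ∀ᶠ T : ℝ in atTop, ∀ q ∈ Exceptional n d Q a b A B T, ∃ j, T ^ (-θ) < |(q j : ℝ) - z j| := by
  constructor
  · intro d A a b β ha hab hβ
    obtain ⟨B, C, h⟩ := Pool.Agent.Q138.AJ.R4b482e.result M n d hn Q hQ (max A 0) a b β (le_max_right _ _) ha hab hβ
    exact ⟨max B 0 + 1, fun θ hθ => far_rat (fun T => Exceptional n d Q a b A (max B 0 + 1) T)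
      (fun T => Exceptional n d Q a b (max A 0) B T) θ _ C 1 (max 1 (2 ^ max B 0)) hθ
      (dim_nonneg hn (beta_nonneg (by positivity) hβ)) h fun T T' h1 h2 h3 => mono h1 h2 h3⟩
  · obtain ⟨Z, hZ, hz⟩ := zero_rat (n := n) (J := ℕ × ℕ × {i : ℚ × ℚ // 0 < (i.1 : ℝ) ∧ (i.1 : ℝ) < (i.2 : ℝ)})
      (fun i B T => Exceptional n i.1 Q (i.2.2.1.1 : ℝ) (i.2.2.1.2 : ℝ) (i.2.1 : ℝ) B T) (by
        rintro ⟨d, A, ⟨⟨a, b⟩, hab⟩⟩
        obtain ⟨B, C, h⟩ := Pool.Agent.Q138.AJ.R4b482e.result M n d hn Q hQ (max (A : ℝ) 0) (a : ℝ) (b : ℝ) (2 : ℝ) (le_max_right _ _) hab.1 hab.2 (two_beta (by positivity))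
        exact ⟨max B 0 + 1, fun T => Exceptional n d Q a b (max (A : ℝ) 0) B T, _, C, 1, max 1 (2 ^ max B 0),
          dim_nonneg hn (by norm_num : (0 : ℝ) ≤ 2), h, fun T T' h1 h2 h3 => mono h1 h2 h3⟩)
    refine ⟨Z, hZ, fun z hzZ d A a b ha hab => ?_⟩
    obtain ⟨i, hi1, hi2⟩ := ends_pos ha hab
    obtain ⟨B, θ, hθ, h⟩ := hz z hzZ (d, ⌈A⌉₊, i)
    refine ⟨B, θ, hθ, ?_⟩
    filter_upwards [h, eventually_ge_atTop 1] with T hT hT1
    exact fun q hq => hT q (mono2 hi1 hi2 (Nat.le_ceil A) hT1 hq)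

end Pool.Agent.Results.MP_4b482e_nt.TuplesNearGivenPoints
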